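import Pool.Agent.V1169.Boole2

/-! # `MP_9b5b1e_an`, Q1: a contracting composition with divergent series and full Denjoy-Wolff set

The statement of Q1 is disproved.  The maps `f n` are conjugate, by the Cayley transform, to
`w ↦ w - β n / w` on the upper half-plane; each of them is two-to-one on the disc.
-/

set_option autoImplicit false

open Set Filter Topology MeasureTheory Complex Metric Pool.Agent.V1169.Boole

namespace Pool.Agent.Results.MP_9b5b1e_an.FullDenjoyWolffSet

/-- The hyperbolic distance of the unit disc (curvature `-1`). -/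
noncomputable def hypDist (z w : ℂ) : ℝ :=
  Real.log ((1 + ‖z - w‖ / ‖1 - (starRingEnd ℂ) w * z‖) / (1 - ‖z - w‖ / ‖1 - (starRingEnd ℂ) w * z‖))

/-- `f` has the radial limit `w` at the point `exp (i θ)` of the unit circle. -/
def HasRadialLimit (f : ℂ → ℂ) (θ : ℝ) (w : ℂ) : Prop :=
  Tendsto (fun r : ℝ => f (r * exp (θ * I))) (𝓝[<] 1) (𝓝 w)

/-- Inner functions: holomorphic self-maps of the unit disc whose radial limits have modulus one
at almost every point of the unit circle. -/
structure IsInner (f : ℂ → ℂ) : Prop where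
  differentiableOn : DifferentiableOn ℂ f (ball 0 1)
  mapsTo : MapsTo f (ball 0 1) (ball 0 1)
  radial : ∀ᵐ θ : ℝ, ∃ w : ℂ, ‖w‖ = 1 ∧ HasRadialLimit f θ w

/-- Forward compositions `F n = f n ∘ ⋯ ∘ f 0`. -/
noncomputable def fwd (f : ℕ → ℂ → ℂ) : ℕ → ℂ → ℂ
  | 0 => f 0
  | n + 1 => f (n + 1) ∘ fwd f n

/-- The Denjoy-Wolff set of a sequence of maps, as a set of angles: all radial limits exist at
`exp (i θ)` and their distance to the orbit of `0` tends to `0`. -/
def denjoyWolff (F : ℕ → ℂ → ℂ) : Set ℝ :=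
  {θ | ∃ L : ℕ → ℂ, (∀ n, HasRadialLimit (F n) θ (L n)) ∧
    Tendsto (fun n => ‖L n - F n 0‖) atTop (𝓝 0)}

/-- The maps. -/
noncomputable def f (n : ℕ) (z : ℂ) : ℂ := icay (cay z - bet n / cay z)

theorem mem_ball' {z : ℂ} : z ∈ ball (0:ℂ) 1 ↔ ‖z‖ < 1 := by simp

theorem fwd_eq {z : ℂ} (hz : ‖z‖ < 1) (n : ℕ) : fwd f n z = icay (H (n + 1) (cay z)) := by
  induction n with
  | zero => rfl
  | succ n ih =>
    change f (n + 1) (fwd f n z) = _
    rw [ih]
    unfold f
    rw [cay_icay (add_I_ne' (H_im_pos (cay_im_pos hz) (n + 1)).le)]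
    rfl

theorem differentiableAt_cay {z : ℂ} (hz : 1 - z ≠ 0) : DifferentiableAt ℂ cay z := by
  unfold cay
  refine DifferentiableAt.div (by fun_prop) (by fun_prop) hz

theorem differentiableAt_icay {w : ℂ} (hw : w + I ≠ 0) : DifferentiableAt ℂ icay w := by
  unfold icay
  refine DifferentiableAt.div (by fun_prop) (by fun_prop) hw

/-- The generic boundary point. -/
def Good (θ : ℝ) : Prop := ∃ x : ℝ, 1 - exp (θ * I) ≠ 0 ∧ cay (exp (θ * I)) = x ∧
  (∀ n, X n x ≠ 0) ∧ Tendsto (fun n => |X n x|) atTop atTop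

theorem good_of {t : ℝ} (ht : t ∈ J) (k : ℤ) (h1 : ∀ n, X n (Real.tan t) ≠ 0)
    (h2 : Tendsto (fun n => |X n (Real.tan t)|) atTop atTop) :
    Good (2 * t + Real.pi + 2 * Real.pi * k) := by
  have hcos : Real.cos t ≠ 0 := (Real.cos_pos_of_mem_Ioo ht).ne'
  have hcos' : Complex.cos t ≠ 0 := by exact_mod_cast hcos
  have e1 : exp (((2 * t + Real.pi + 2 * Real.pi * k : ℝ) : ℂ) * I) = -(exp (t * I) * exp (t * I)) := by
    have : (((2 * t + Real.pi + 2 * Real.pi * k : ℝ) : ℂ) * I)
        = (t * I + t * I) + Real.pi * I + k * (2 * Real.pi * I) := by push_cast; ring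
    rw [this, exp_add, exp_int_mul_two_pi_mul_I, mul_one, exp_add, exp_pi_mul_I, exp_add]
    ring
  have e2 : 1 + exp (t * I) * exp (t * I) = 2 * Complex.cos t * exp (t * I) := by
    rw [Complex.cos, ← exp_add]
    have h3 : exp (-(t:ℂ) * I) * exp (t * I) = 1 := by
      rw [← exp_add]
      simp
    have h4 : exp ((t:ℂ) * I + t * I) = exp (t * I) * exp (t * I) := exp_add _ _
    rw [h4]
    linear_combination -h3
  have e3 : 1 - exp (t * I) * exp (t * I) = -(2 * I * Complex.sin t * exp (t * I)) := by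
    rw [Complex.sin]
    have h3 : exp (-(t:ℂ) * I) * exp (t * I) = 1 := by
      rw [← exp_add]
      simp
    linear_combination (-1 : ℂ) * h3 + (exp (-(t:ℂ) * I) * exp (t * I) - exp (t * I) * exp (t * I)) * I_sq
  have hexp : exp ((t:ℂ) * I) ≠ 0 := exp_ne_zero _
  refine ⟨Real.tan t, ?_, ?_, h1, h2⟩
  · rw [e1, sub_neg_eq_add, e2]
    exact mul_ne_zero (mul_ne_zero two_ne_zero hcos') hexp
  · unfold cay
    rw [e1, sub_neg_eq_add, ← sub_eq_add_neg, e2, e3]
    rw [ofReal_tan, Complex.tan]
    field_simp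
    linear_combination (-1 : ℂ) * Complex.sin t * I_sq

theorem ae_good : ∀ᵐ θ : ℝ, Good θ := by
  set Z : Set ℝ := {t | t ∈ J ∧ ¬ ((∀ n, X n (Real.tan t) ≠ 0) ∧
    Tendsto (fun n => |X n (Real.tan t)|) atTop atTop)} with hZ
  have hZ0 : volume Z = 0 := by
    have h1 := ae_orbit
    have hJ : MeasurableSet J := measurableSet_Ioo
    rw [ae_restrict_iff' hJ, ae_iff] at h1
    refine measure_mono_null ?_ h1
    rintro t ⟨ht1, ht2⟩
    simp only [mem_ofPred_eq, Classical.not_imp]
    exact ⟨ht1, ht2⟩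
  rw [ae_iff]
  have hsub : {θ : ℝ | ¬ Good θ} ⊆ (⋃ k : ℤ, (fun t : ℝ => 2 * t + Real.pi + 2 * Real.pi * k) '' Z) ∪
      range (fun k : ℤ => 2 * Real.pi * (k : ℝ)) := by
    intro θ hθ
    by_cases hr : θ ∈ range (fun k : ℤ => 2 * Real.pi * (k : ℝ))
    · exact Or.inr hr
    · left
      have hπ := Real.pi_pos
      set k : ℤ := ⌊θ / (2 * Real.pi)⌋ with hk
      have h1 : (k : ℝ) ≤ θ / (2 * Real.pi) := Int.floor_le _
      have h2 : θ / (2 * Real.pi) < k + 1 := Int.lt_floor_add_one _
      rw [le_div_iff₀ (by positivity)] at h1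
      rw [div_lt_iff₀ (by positivity)] at h2
      have h3 : (k : ℝ) * (2 * Real.pi) ≠ θ := fun h => hr ⟨k, by simp only; linarith⟩
      have h4 : (k : ℝ) * (2 * Real.pi) < θ := lt_of_le_of_ne h1 h3
      set t : ℝ := (θ - 2 * Real.pi * k - Real.pi) / 2 with ht
      have htJ : t ∈ J := ⟨by linarith, by linarith⟩
      have hθt : 2 * t + Real.pi + 2 * Real.pi * k = θ := by rw [ht]; ring
      rw [mem_iUnion]
      refine ⟨k, t, ⟨htJ, fun h5 => hθ ?_⟩, hθt⟩
      rw [← hθt]
      exact good_of htJ k h5.1 h5.2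
  refine measure_mono_null hsub (measure_union_null (measure_iUnion_null fun k => ?_) ?_)
  · refine addHaar_image_eq_zero_of_differentiableOn_of_addHaar_eq_zero volume ?_ hZ0
    exact (by fun_prop : Differentiable ℝ fun t : ℝ => 2 * t + Real.pi + 2 * Real.pi * k).differentiableOn
  · exact (countable_range _).measure_zero _

/-- Radial limits from continuity of an extension. -/
theorem radial_of {g h : ℂ → ℂ} {θ : ℝ} (hgh : ∀ z : ℂ, ‖z‖ < 1 → g z = h z)
    (hc : ContinuousAt h (exp (θ * I))) : HasRadialLimit g θ (h (exp (θ * I))) := by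
  have h1 : Tendsto (fun r : ℝ => (r : ℂ) * exp (θ * I)) (𝓝[<] 1) (𝓝 (exp (θ * I))) := by
    have : Continuous fun r : ℝ => (r : ℂ) * exp (θ * I) := by fun_prop
    have h2 := this.tendsto 1
    rw [ofReal_one, one_mul] at h2
    exact h2.mono_left nhdsWithin_le_nhds
  refine (hc.tendsto.comp h1).congr' ?_
  have h3 : ∀ᶠ r : ℝ in 𝓝[<] 1, 0 < r := by
    filter_upwards [Ioo_mem_nhdsLT (show (0:ℝ) < 1 by norm_num)] with r hr using hr.1
  filter_upwards [h3, self_mem_nhdsWithin] with r hr0 hr1
  have hr1' : r < 1 := hr1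
  refine (hgh _ ?_).symm
  rw [norm_mul, norm_exp_ofReal_mul_I, mul_one, norm_real, Real.norm_of_nonneg hr0.le]
  exact hr1'

theorem isInner_f (n : ℕ) : IsInner (f n) := by
  refine ⟨?_, ?_, ?_⟩
  · intro z hz
    rw [mem_ball'] at hz
    have h1 := cay_im_pos hz
    have h2 := T_im_pos (bet_pos n) h1
    have h3 : DifferentiableAt ℂ (fun z => cay z - bet n / cay z) z :=
      (differentiableAt_cay (one_sub_ne hz)).sub
        ((differentiableAt_const _).div (differentiableAt_cay (one_sub_ne hz)) (ne_zero_of_im h1))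
    exact ((differentiableAt_icay (add_I_ne' h2.le)).comp z h3).differentiableWithinAt
  · intro z hz
    rw [mem_ball'] at hz ⊢
    exact norm_icay_lt (T_im_pos (bet_pos n) (cay_im_pos hz))
  · filter_upwards [ae_good] with θ hθ
    obtain ⟨x, h1, h2, h3, -⟩ := hθ
    have hx : (x : ℂ) ≠ 0 := by exact_mod_cast (h3 0)
    refine ⟨f n (exp (θ * I)), ?_, radial_of (fun _ _ => rfl) ?_⟩
    · unfold f
      rw [h2]
      have : (x : ℂ) - bet n / x = ((x - bet n / x : ℝ) : ℂ) := by push_cast; rfl
      rw [this]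
      exact norm_icay_real _
    · have h4 : ContinuousAt cay (exp (θ * I)) := (differentiableAt_cay h1).continuousAt
      have h5 : ContinuousAt (fun z => cay z - bet n / cay z) (exp (θ * I)) :=
        h4.sub (continuousAt_const.div h4 (by rw [h2]; exact hx))
      refine ContinuousAt.comp (g := icay) (f := fun z => cay z - bet n / cay z) ?_ h5
      refine (differentiableAt_icay ?_).continuousAt
      simp only [h2]
      have : (x : ℂ) - bet n / x = ((x - bet n / x : ℝ) : ℂ) := by push_cast; rfl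
      rw [this]
      exact add_I_ne' (by simp)

theorem not_injOn_f (n : ℕ) : ¬ InjOn (f n) (ball 0 1) := by
  intro hinj
  have hβ := bet_pos n
  set b := √(bet n) with hb
  have hb0 : 0 < b := Real.sqrt_pos.2 hβ
  have hbb : b * b = bet n := Real.mul_self_sqrt hβ.le
  have hbb' : (b : ℂ) * b = bet n := by exact_mod_cast hbb
  set w₁ : ℂ := 2 * b * I with hw₁
  set w₂ : ℂ := b / 2 * I with hw₂
  have him₁ : 0 < w₁.im := by simp [hw₁]; positivity
  have him₂ : 0 < w₂.im := by
    have : w₂ = ((b / 2 : ℝ) : ℂ) * I := by rw [hw₂]; push_cast; rfl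
    rw [this]
    simp only [mul_im, ofReal_re, I_im, ofReal_im, I_re]
    linarith
  have h1 : w₁ - bet n / w₁ = w₂ - bet n / w₂ := by
    have hbne : (b : ℂ) ≠ 0 := by exact_mod_cast hb0.ne'
    rw [← hbb', hw₁, hw₂]
    have hI := I_ne_zero
    field_simp
    linear_combination (3 : ℂ) * I_sq
  have h2 : icay w₁ = icay w₂ := by
    refine hinj (mem_ball'.2 (norm_icay_lt him₁)) (mem_ball'.2 (norm_icay_lt him₂)) ?_
    unfold f
    rw [cay_icay (add_I_ne' him₁.le), cay_icay (add_I_ne' him₂.le), h1]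
  have h3 : w₁ = w₂ := by
    rw [← cay_icay (add_I_ne' him₁.le), ← cay_icay (add_I_ne' him₂.le), h2]
  have h4 := congrArg im h3
  have e2 : w₂.im = b / 2 := by
    have : w₂ = ((b / 2 : ℝ) : ℂ) * I := by rw [hw₂]; push_cast; rfl
    rw [this]
    simp
  have e1 : w₁.im = 2 * b := by simp [hw₁]
  rw [e1, e2] at h4
  linarith

theorem tendsto_icay {W : ℕ → ℂ} (h : Tendsto (fun n => ‖W n‖) atTop atTop) :
    Tendsto (fun n => icay (W n)) atTop (𝓝 1) := by
  rw [tendsto_iff_norm_sub_tendsto_zero]
  have h1 : Tendsto (fun n => ‖W n + I‖) atTop atTop := by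
    have h2 : ∀ n, ‖W n‖ - 1 ≤ ‖W n + I‖ := by
      intro n
      have := norm_sub_le (W n + I) I
      rw [add_sub_cancel_right, norm_I] at this
      linarith
    exact tendsto_atTop_mono h2 (tendsto_atTop_add_const_right _ (-1) h)
  have h3 : Tendsto (fun n => 2 / ‖W n + I‖) atTop (𝓝 0) := h1.const_div_atTop 2
  refine h3.congr' ?_
  filter_upwards [h1.eventually_gt_atTop 0] with n hn
  have h4 : W n + I ≠ 0 := norm_pos_iff.1 hn
  have h5 : icay (W n) - 1 = -(2 * I) / (W n + I) := by
    unfold icay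
    field_simp
    ring
  rw [h5, norm_div, norm_neg, norm_mul, norm_I]
  simp

theorem tendsto_lam : Tendsto lam atTop atTop :=
  tendsto_atTop_mono le_lam tendsto_natCast_atTop_atTop

theorem cay_zero : cay 0 = I := by simp [cay]

/-- **Disproof of the statement of Q1.** -/
theorem result : ∃ f : ℕ → ℂ → ℂ, (∀ n, IsInner (f n)) ∧ (∀ n, ¬ InjOn (f n) (ball 0 1)) ∧
    (∀ z ∈ ball (0:ℂ) 1, ∀ z' ∈ ball (0:ℂ) 1,
      Tendsto (fun n => hypDist (fwd f n z) (fwd f n z')) atTop (𝓝 0)) ∧
    (∀ z ∈ ball (0:ℂ) 1, Tendsto (fun n => ‖fwd f n z‖) atTop (𝓝 1)) ∧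
    ¬ Summable (fun n => 1 - ‖fwd f n 0‖) ∧
    ∀ᵐ θ : ℝ, θ ∈ denjoyWolff (fwd f) := by
  refine ⟨f, isInner_f, not_injOn_f, ?_, ?_, ?_, ?_⟩
  · intro z hz z' hz'
    rw [mem_ball'] at hz hz'
    have hw := cay_im_pos hz
    have hw' := cay_im_pos hz'
    have hq := (tendsto_q hw).comp (tendsto_add_atTop_nat 1)
    have hq' := (tendsto_q hw').comp (tendsto_add_atTop_nat 1)
    have hρ : Tendsto (fun n => ‖fwd f n z - fwd f n z'‖ /
        ‖1 - (starRingEnd ℂ) (fwd f n z') * fwd f n z‖) atTop (𝓝 0) := by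
      have h1 : Tendsto (fun n => 3 * (q (n + 1) (cay z) + q (n + 1) (cay z'))) atTop (𝓝 0) := by
        have := (hq.add hq').const_mul 3
        simpa using this
      refine squeeze_zero' (Eventually.of_forall fun n => by positivity) ?_ h1
      filter_upwards [hq.eventually_le_const (show (0:ℝ) < 1 / 8 by norm_num),
        hq'.eventually_le_const (show (0:ℝ) < 1 / 8 by norm_num)] with n hn hn'
      simp only [Function.comp] at hn hn'
      rw [fwd_eq hz, fwd_eq hz', pseudo (H_im_pos hw _) (H_im_pos hw' _)]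
      have hl := lam_pos (n + 1)
      have a1 := norm_le_of_q hw hn
      have a2 := norm_le_of_q hw' hn'
      have a3 := im_ge_of_q hw hn
      have a4 := im_ge_of_q hw' hn'
      have a5 : ‖H (n + 1) (cay z) - H (n + 1) (cay z')‖ ≤
          3 * lam (n + 1) * (q (n + 1) (cay z) + q (n + 1) (cay z')) := by
        have : H (n + 1) (cay z) - H (n + 1) (cay z') = (H (n + 1) (cay z) - lam (n + 1) * I)
            - (H (n + 1) (cay z') - lam (n + 1) * I) := by ring
        rw [this]
        refine (norm_sub_le _ _).trans ?_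
        linarith
      have a6 : lam (n + 1) ≤ ‖H (n + 1) (cay z) - (starRingEnd ℂ) (H (n + 1) (cay z'))‖ := by
        have := abs_im_le_norm (H (n + 1) (cay z) - (starRingEnd ℂ) (H (n + 1) (cay z')))
        rw [sub_im, conj_im, sub_neg_eq_add] at this
        have h2 := le_abs_self ((H (n + 1) (cay z)).im + (H (n + 1) (cay z')).im)
        linarith
      rw [div_le_iff₀ (by linarith)]
      refine a5.trans ?_
      have a7 : 0 ≤ q (n + 1) (cay z) + q (n + 1) (cay z') :=
        add_nonneg (q_nonneg _ _) (q_nonneg _ _)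
      nlinarith
    unfold hypDist
    have hlog : Tendsto (fun ρ : ℝ => Real.log ((1 + ρ) / (1 - ρ))) (𝓝 0) (𝓝 0) := by
      have hc : ContinuousAt (fun ρ : ℝ => Real.log ((1 + ρ) / (1 - ρ))) 0 := by
        refine ContinuousAt.log (ContinuousAt.div (by fun_prop) (by fun_prop) (by norm_num)) ?_
        norm_num
      have := hc.tendsto
      simpa using this
    exact hlog.comp hρ
  · intro z hz
    rw [mem_ball'] at hz
    have hw := cay_im_pos hz
    have hq := (tendsto_q hw).comp (tendsto_add_atTop_nat 1)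
    have h1 : Tendsto (fun n => ‖H (n + 1) (cay z)‖) atTop atTop := by
      have h2 : Tendsto (fun n => lam (n + 1) / 2) atTop atTop :=
        (tendsto_lam.comp (tendsto_add_atTop_nat 1)).atTop_div_const (by norm_num)
      refine tendsto_atTop_mono' _ ?_ h2
      filter_upwards [hq.eventually_le_const (show (0:ℝ) < 1 / 8 by norm_num)] with n hn
      have a3 := im_ge_of_q hw hn
      exact a3.trans ((le_abs_self _).trans (abs_im_le_norm _))
    have h2 := (tendsto_icay h1).norm
    rw [norm_one] at h2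
    refine h2.congr fun n => ?_
    rw [fwd_eq hz]
  · intro hsum
    have h0 : ∀ n : ℕ, 2 / 5 * (1 / ((n : ℝ) + 1)) ≤ 1 - ‖fwd f n 0‖ := by
      intro n
      rw [fwd_eq (by simp), cay_zero, H_I]
      have h1 := one_le_lam (n + 1)
      have h2 := lam_le (n := n + 1) (by omega)
      push_cast at h2
      have h3 : icay (lam (n + 1) * I) = (((lam (n + 1) - 1) / (lam (n + 1) + 1) : ℝ) : ℂ) := by
        unfold icay
        have h4 : (lam (n + 1) : ℂ) + 1 ≠ 0 := by
          have : (lam (n + 1) + 1 : ℝ) ≠ 0 := by linarith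
          exact_mod_cast this
        push_cast
        have h5 : (lam (n + 1) : ℂ) * I + I = (lam (n + 1) + 1) * I := by ring
        have h6 : (lam (n + 1) : ℂ) * I - I = (lam (n + 1) - 1) * I := by ring
        rw [h5, h6]
        exact mul_div_mul_right _ _ I_ne_zero
      rw [h3, norm_real, Real.norm_of_nonneg (div_nonneg (by linarith) (by linarith))]
      have h7 : 1 - (lam (n + 1) - 1) / (lam (n + 1) + 1) = 2 / (lam (n + 1) + 1) := by
        have : lam (n + 1) + 1 ≠ 0 := by linarith
        field_simp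
        ring
      rw [h7, div_mul_div_comm, div_le_div_iff₀ (by positivity) (by linarith)]
      have hn : (0:ℝ) ≤ n := Nat.cast_nonneg n
      nlinarith
    have h1 : Summable fun n : ℕ => 2 / 5 * (1 / ((n : ℝ) + 1)) :=
      Summable.of_nonneg_of_le (fun n => by positivity) h0 hsum
    have h2 : Summable fun n : ℕ => 1 / ((n : ℝ) + 1) := by
      have := h1.mul_left (5 / 2)
      refine this.congr fun n => ?_
      ring
    have h3 : Summable fun n : ℕ => 1 / (n : ℝ) := by
      rw [← summable_nat_add_iff 1]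
      refine h2.congr fun n => ?_
      push_cast
      rfl
    exact Real.not_summable_one_div_natCast h3
  · filter_upwards [ae_good] with θ hθ
    obtain ⟨x, h1, h2, h3, h4⟩ := hθ
    refine ⟨fun n => icay (X (n + 1) x), fun n => ?_, ?_⟩
    · have hc1 : ContinuousAt cay (exp (θ * I)) := (differentiableAt_cay h1).continuousAt
      have hc2 : ContinuousAt (fun z => H (n + 1) (cay z)) (exp (θ * I)) := by
        refine ContinuousAt.comp (g := H (n + 1)) (f := cay) ?_ hc1
        rw [h2]
        exact continuousAt_H h3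
      have hc3 : ContinuousAt (fun z => icay (H (n + 1) (cay z))) (exp (θ * I)) := by
        refine ContinuousAt.comp (g := icay) (f := fun z => H (n + 1) (cay z)) ?_ hc2
        refine (differentiableAt_icay ?_).continuousAt
        rw [h2, H_ofReal]
        exact add_I_ne' (by simp)
      have := radial_of (g := fwd f n) (h := fun z => icay (H (n + 1) (cay z))) (θ := θ)
        (fun z hz => fwd_eq hz n) hc3
      simp only [h2, H_ofReal] at this
      exact this
    · have e1 : Tendsto (fun n => icay (X (n + 1) x)) atTop (𝓝 1) := by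
        refine tendsto_icay ?_
        have := h4.comp (tendsto_add_atTop_nat 1)
        refine this.congr fun n => ?_
        simp only [Function.comp, norm_real, Real.norm_eq_abs]
      have e2 : Tendsto (fun n => fwd f n 0) atTop (𝓝 1) := by
        have h5 : Tendsto (fun n => ‖(lam (n + 1) : ℂ) * I‖) atTop atTop := by
          have := tendsto_lam.comp (tendsto_add_atTop_nat 1)
          refine this.congr fun n => ?_
          simp only [Function.comp, norm_mul, norm_I, mul_one, norm_real,
            Real.norm_of_nonneg (lam_pos (n + 1)).le]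
        refine (tendsto_icay h5).congr fun n => ?_
        rw [fwd_eq (by simp), cay_zero, H_I]
      have := (e1.sub e2).norm
      simpa using this

end Pool.Agent.Results.MP_9b5b1e_an.FullDenjoyWolffSet
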